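import Pool.Agent.Helper49.Fano.Final

set_option autoImplicit false

namespace Pool.Agent.Results.MP_3acf9a_ag.SameFanoFunction

open Pool.Agent.Helper49.Fano

/-- There are two del Pezzo surfaces `S` and `Y` over `ℂ` which are not isomorphic over `ℂ` and
have the same Fano function. -/
theorem result : ∃ S Y : CScheme, IsFano S 2 ∧ IsFano Y 2 ∧ ¬ Iso Y S ∧
    ∀ (lin : Prop) (n : ℕ), kappa lin Y n = kappa lin S n :=
  main

end Pool.Agent.Results.MP_3acf9a_ag.SameFanoFunction
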